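import Pool.Agent.helper50.NPT.Spec1

set_option autoImplicit false

namespace NPT

open scoped Classical
open AN

section

variable {p : ℕ} [Fact p.Prime] {Ω : Type} [Field Ω] [CharP Ω p] {g : ℕ}

theorem LIN_frV_mulVec (M : Matrix (Fin g) (Fin g) Ω) (v : Fin g → Ω) : frV p (M.mulVec v) = (frM p M).mulVec (frV p v) := by
  funext i
  simp only [frV, frM, Matrix.mulVec, dotProduct, Matrix.map_apply]
  rw [sum_pow_char]
  refine Finset.sum_congr rfl fun j _ => ?_
  rw [mul_pow]

theorem LIN_frV_add (u v : Fin g → Ω) : frV p (u + v) = frV p u + frV p v := by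
  funext i
  simp only [frV, Pi.add_apply]
  exact add_pow_char (u i) (v i) p

omit [Fact p.Prime] [CharP Ω p] in
theorem LIN_frV_smul (c : Ω) (u : Fin g → Ω) : frV p (c • u) = c ^ p • frV p u := by
  funext i
  simp only [frV, Pi.smul_apply, smul_eq_mul]
  rw [mul_pow]

theorem LIN_frV_inj {u v : Fin g → Ω} (h : frV p u = frV p v) : u = v := by
  funext i
  have h1 := congrFun h i
  simp only [frV] at h1
  exact frobenius_inj Ω p (by simpa [frobenius_def] using h1)

theorem LIN_add (H : Matrix (Fin g) (Fin g) Ω) (u v : Fin g → Ω) : Fr p H (u + v) = Fr p H u + Fr p H v := by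
  unfold Fr
  rw [LIN_frV_add, Matrix.mulVec_add]

omit [Fact p.Prime] [CharP Ω p] in
theorem LIN_smul (H : Matrix (Fin g) (Fin g) Ω) (c : Ω) (u : Fin g → Ω) : Fr p H (c • u) = c ^ p • Fr p H u := by
  unfold Fr
  rw [LIN_frV_smul, Matrix.mulVec_smul]

theorem LIN_it_add (H : Matrix (Fin g) (Fin g) Ω) (n : ℕ) (u v : Fin g → Ω) : (Fr p H)^[n] (u + v) = (Fr p H)^[n] u + (Fr p H)^[n] v := by
  induction n with
  | zero => rfl
  | succ n ih => rw [Function.iterate_succ_apply', Function.iterate_succ_apply', Function.iterate_succ_apply', ih, LIN_add]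

theorem LIN_it_smul (H : Matrix (Fin g) (Fin g) Ω) (n : ℕ) (c : Ω) (u : Fin g → Ω) : (Fr p H)^[n] (c • u) = c ^ p ^ n • (Fr p H)^[n] u := by
  induction n with
  | zero => simp
  | succ n ih => rw [Function.iterate_succ_apply', Function.iterate_succ_apply', ih, LIN_smul, ← pow_mul, pow_succ]

theorem LIN_it_MN (H : Matrix (Fin g) (Fin g) Ω) (n : ℕ) (u : Fin g → Ω) : (Fr p H)^[n] u = (MN p H n).mulVec ((frV p)^[n] u) := by
  induction n with
  | zero =>
    change u = (1 : Matrix (Fin g) (Fin g) Ω).mulVec u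
    rw [Matrix.one_mulVec]
  | succ n ih =>
    rw [Function.iterate_succ_apply', Function.iterate_succ_apply', ih]
    change H.mulVec (frV p _) = (H * frM p (MN p H n)).mulVec _
    rw [LIN_frV_mulVec, Matrix.mulVec_mulVec]

/-- a set in which the kernel of the iterate is contained -/
theorem LIN_ker [IsAlgClosed Ω] (H : Matrix (Fin g) (Fin g) Ω) (x : Fin g → Ω) (hx : ∀ u, Fr p H u = 0 → ∃ l : Ω, u = l • x) (n : ℕ) :
    ∃ K : Submodule Ω (Fin g → Ω), Module.finrank Ω K ≤ n ∧ ∀ u, (Fr p H)^[n] u = 0 → u ∈ K := by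
  induction n with
  | zero =>
    refine ⟨⊥, by simp, fun u hu => ?_⟩
    simpa using hu
  | succ n ih =>
    obtain ⟨K, hK1, hK2⟩ := ih
    by_cases hA : ∀ u, (Fr p H)^[n + 1] u = 0 → (Fr p H)^[n] u = 0
    · exact ⟨K, by omega, fun u hu => hK2 u (hA u hu)⟩
    · push Not at hA
      obtain ⟨u0, h1, h2⟩ := hA
      refine ⟨K ⊔ Submodule.span Ω {u0}, ?_, fun u hu => ?_⟩
      · have h3 : Module.finrank Ω (Submodule.span Ω {u0}) ≤ 1 := by
          have h4 := finrank_span_le_card (R := Ω) ({u0} : Set (Fin g → Ω))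
          simpa using h4
        have h5 := Submodule.finrank_add_le_finrank_add_finrank K (Submodule.span Ω {u0})
        omega
      · rw [Function.iterate_succ_apply'] at h1 hu
        obtain ⟨l0, hl0⟩ := hx _ h1
        obtain ⟨l, hl⟩ := hx _ hu
        have hl00 : l0 ≠ 0 := by
          intro h
          rw [h, zero_smul] at hl0
          exact h2 hl0
        obtain ⟨c, hc⟩ := IsAlgClosed.exists_pow_nat_eq (l / l0) (Nat.pow_pos (n := n) (Fact.out : p.Prime).pos)
        have h6 : (Fr p H)^[n] (u + (-c) • u0) = 0 := by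
          have h7 : (Fr p H)^[n] u = (Fr p H)^[n] (c • u0) := by
            rw [LIN_it_smul, hc, hl, hl0, smul_smul]
            congr 1
            field_simp
          have h8 : (Fr p H)^[n] (u + (-c) • u0) + (Fr p H)^[n] (c • u0) = (Fr p H)^[n] u := by
            rw [← LIN_it_add]
            congr 1
            rw [add_assoc, ← add_smul]
            simp
          rw [h7] at h8
          exact left_eq_add.1 (by rw [add_comm]; exact h8.symm)
        have h9 := hK2 _ h6
        have h10 : u = (u + (-c) • u0) + c • u0 := by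
          rw [add_assoc, ← add_smul]
          simp
        rw [h10]
        exact Submodule.add_mem_sup h9 (Submodule.smul_mem _ _ (Submodule.mem_span_singleton_self u0))

end

theorem LIN : LIN_stmt := by
  intro p hp Ω _ _ _ g H hg hMN hrk x y hx0 hHx hy0 hHy
  have hfx : frV p x ≠ 0 := by
    intro h
    apply hx0
    apply LIN_frV_inj (p := p)
    rw [h]
    funext i
    simp [frV, hp.out.ne_zero]
  have hdim : Module.finrank Ω (Fin g → Ω) = g := by simp
  have hrn := LinearMap.finrank_range_add_finrank_ker H.mulVecLin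
  rw [hdim] at hrn
  have hrk' : Module.finrank Ω (LinearMap.range H.mulVecLin) = H.rank := rfl
  -- (4)
  have h4 : ∀ v : Fin g → Ω, H.mulVec v = 0 → ∃ l : Ω, v = l • frV p x := by
    intro v hv
    have hmem : frV p x ∈ LinearMap.ker H.mulVecLin := hHx
    have hle : Module.finrank Ω (LinearMap.ker H.mulVecLin) ≤ 1 := by omega
    have hvm : v ∈ LinearMap.ker H.mulVecLin := hv
    rw [finrank_le_one_iff] at hle
    obtain ⟨w, hw⟩ := hle
    obtain ⟨c1, hc1⟩ := hw ⟨_, hmem⟩
    obtain ⟨c2, hc2⟩ := hw ⟨_, hvm⟩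
    have e1 : c1 • (w : Fin g → Ω) = frV p x := congrArg Subtype.val hc1
    have e2 : c2 • (w : Fin g → Ω) = v := congrArg Subtype.val hc2
    have hc10 : c1 ≠ 0 := by
      intro h
      rw [h, zero_smul] at e1
      exact hfx e1.symm
    refine ⟨c2 / c1, ?_⟩
    rw [← e1, ← e2, smul_smul]
    congr 1
    field_simp
  have hroot : ∀ w : Fin g → Ω, ∃ u : Fin g → Ω, frV p u = w := by
    intro w
    have h : ∀ i, ∃ z : Ω, z ^ p = w i := fun i => IsAlgClosed.exists_pow_nat_eq (w i) hp.out.pos
    choose u hu using h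
    exact ⟨u, funext hu⟩
  have hyH : ∀ w : Fin g → Ω, y ⬝ᵥ (H.mulVec w) = 0 := by
    intro w
    rw [Matrix.dotProduct_mulVec, ← Matrix.mulVec_transpose, hHy, zero_dotProduct]
  -- (1)
  have h1 : ∀ v : Fin g → Ω, y ⬝ᵥ v = 0 → ∃ u, v = Fr p H u := by
    intro v hv
    have hK : LinearMap.range H.mulVecLin = LinearMap.ker (Matrix.mulVecLin (Matrix.of fun (_ : Fin 1) j => y j)) := by
      apply Submodule.eq_of_le_of_finrank_le
      · rintro _ ⟨w, rfl⟩
        rw [LinearMap.mem_ker]
        funext i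
        exact hyH w
      · have hrn2 := LinearMap.finrank_range_add_finrank_ker (Matrix.mulVecLin (Matrix.of fun (_ : Fin 1) j => y j))
        rw [hdim] at hrn2
        have hpos : 0 < Module.finrank Ω (LinearMap.range (Matrix.mulVecLin (Matrix.of fun (_ : Fin 1) j => y j))) := by
          rw [Module.finrank_pos_iff]
          obtain ⟨j, hj⟩ : ∃ j, y j ≠ 0 := by
            by_contra h
            push Not at h
            exact hy0 (funext h)
          refine ⟨⟨⟨_, ⟨Pi.single j 1, rfl⟩⟩, 0, fun h => hj ?_⟩⟩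
          have h5 := congrFun (congrArg Subtype.val h) 0
          simpa [Matrix.mulVec, dotProduct, Pi.single_apply] using h5
        omega
    have hv' : v ∈ LinearMap.range H.mulVecLin := by
      rw [hK, LinearMap.mem_ker]
      funext i
      exact hv
    obtain ⟨w, hw⟩ := hv'
    obtain ⟨u, hu⟩ := hroot w
    refine ⟨u, ?_⟩
    unfold Fr
    rw [hu]
    exact hw.symm
  have hFr : ∀ u, Fr p H u = 0 → ∃ l : Ω, u = l • x := by
    intro u hu
    obtain ⟨l, hl⟩ := h4 _ hu
    obtain ⟨κ, hκ⟩ := IsAlgClosed.exists_pow_nat_eq l hp.out.pos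
    refine ⟨κ, LIN_frV_inj (p := p) ?_⟩
    rw [hl, LIN_frV_smul, hκ]
  have hg0 : ∀ u, (Fr p H)^[g] u = 0 := by
    intro u
    rw [LIN_it_MN, hMN, Matrix.zero_mulVec]
  refine ⟨h1, ?_, ?_, h4⟩
  · intro u
    apply hFr
    rw [← Function.iterate_succ_apply' (Fr p H) (g - 1) u]
    have : (g - 1).succ = g := by omega
    rw [this]
    exact hg0 u
  · intro u hu i hi v hv
    rw [Function.iterate_succ_apply] at hv
    -- u' = u - Fr v
    have hu' : (Fr p H)^[i] (u + (-1 : Ω) • Fr p H v) = 0 := by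
      have e1 : (Fr p H)^[i] (u + (-1 : Ω) • Fr p H v) + (Fr p H)^[i] (Fr p H v) = (Fr p H)^[i] u := by
        rw [← LIN_it_add]
        congr 1
        simp
      rw [← hv] at e1
      exact left_eq_add.1 (by rw [add_comm]; exact e1.symm)
    have hyu' : y ⬝ᵥ (u + (-1 : Ω) • Fr p H v) ≠ 0 := by
      rw [dotProduct_add, dotProduct_smul]
      have : y ⬝ᵥ Fr p H v = 0 := hyH _
      rw [this]
      simpa using hu
    have hstep : ∀ w, ∃ w', (Fr p H)^[i] w = (Fr p H)^[i + 1] w' := by
      intro w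
      obtain ⟨w3, hw3⟩ := h1 (w + (-(y ⬝ᵥ w / y ⬝ᵥ (u + (-1 : Ω) • Fr p H v))) • (u + (-1 : Ω) • Fr p H v)) (by
        rw [dotProduct_add, dotProduct_smul, smul_eq_mul, neg_mul, div_mul_cancel₀ _ hyu']
        ring)
      refine ⟨w3, ?_⟩
      rw [Function.iterate_succ_apply, ← hw3, LIN_it_add, LIN_it_smul, hu', smul_zero, add_zero]
    have hall : ∀ n w, ∃ w', (Fr p H)^[i] w = (Fr p H)^[i + n] w' := by
      intro n
      induction n with
      | zero => exact fun w => ⟨w, rfl⟩
      | succ n ih =>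
        intro w
        obtain ⟨w1, h1'⟩ := ih w
        obtain ⟨w2, h2'⟩ := hstep w1
        refine ⟨w2, ?_⟩
        rw [h1', add_comm i n, Function.iterate_add_apply, h2', ← Function.iterate_add_apply]
        congr 1
        omega
    have hzero : ∀ w, (Fr p H)^[i] w = 0 := by
      intro w
      obtain ⟨w', hw'⟩ := hall (g - i) w
      rw [hw']
      have : i + (g - i) = g := by omega
      rw [this]
      exact hg0 w'
    obtain ⟨K, hK1, hK2⟩ := LIN_ker H x hFr i
    have hKtop : K = ⊤ := by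
      rw [eq_top_iff]
      intro w _
      exact hK2 w (hzero w)
    rw [hKtop, finrank_top, hdim] at hK1
    omega

end NPT
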