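import Pool.Agent.helper50.NPT.Spec1

set_option autoImplicit false

namespace NPT

open scoped Classical
open AN

theorem PPM_pow {B : Type} [CommRing B] (δ : B →+ B) (hδ : ∀ u v, δ (u * v) = δ u * v + u * δ v) (x : B) (n : ℕ) :
    δ (x ^ (n + 1)) = ((n + 1 : ℕ) : B) * (x ^ n * δ x) := by
  induction n with
  | zero => simp
  | succ n ih =>
    rw [pow_succ x (n + 1), hδ, ih]
    push_cast
    ring

theorem PPM_nat {B : Type} [CommRing B] (δ : B →+ B) (n : ℕ) (z : B) : δ ((n : B) * z) = (n : B) * δ z := by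
  rw [← nsmul_eq_mul, map_nsmul, nsmul_eq_mul]

theorem PPM_c1 {n : ℕ} (hp : (n + 1).Prime) {j : ℕ} (hj : j < n) : (n + 1).choose (j + 1) / (n + 1) * (j + 1) = n.choose j := by
  have h1 : (n + 1) ∣ (n + 1).choose (j + 1) := hp.dvd_choose_self (by omega) (by omega)
  have h2 : (n + 1) * n.choose j = (n + 1).choose (j + 1) * (j + 1) := Nat.add_one_mul_choose_eq n j
  obtain ⟨m, hm⟩ := h1
  rw [hm, Nat.mul_div_cancel_left _ (Nat.succ_pos n)]
  rw [hm] at h2
  have h3 : (n + 1) * n.choose j = (n + 1) * (m * (j + 1)) := by rw [h2]; ring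
  exact (Nat.eq_of_mul_eq_mul_left (Nat.succ_pos n) h3).symm

theorem PPM_c2 {n : ℕ} (hp : (n + 1).Prime) {j : ℕ} (hj : j < n) : (n + 1).choose (j + 1) / (n + 1) * (n - j) = n.choose (j + 1) := by
  have h1 : (n + 1) ∣ (n + 1).choose (j + 1) := hp.dvd_choose_self (by omega) (by omega)
  have h2 : n.choose (j + 1) * (n + 1) = (n + 1).choose (j + 1) * (n + 1 - (j + 1)) := Nat.choose_mul_succ_eq n (j + 1)
  have h4 : n + 1 - (j + 1) = n - j := by omega
  rw [h4] at h2
  obtain ⟨m, hm⟩ := h1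
  rw [hm, Nat.mul_div_cancel_left _ (Nat.succ_pos n)]
  rw [hm] at h2
  have h3 : (n + 1) * n.choose (j + 1) = (n + 1) * (m * (n - j)) := by
    rw [mul_comm (n + 1) (n.choose (j + 1)), h2]; ring
  exact (Nat.eq_of_mul_eq_mul_left (Nat.succ_pos n) h3).symm

/-- the sum over `range` -/
theorem PPM_P2 (n : ℕ) {B : Type} [CommRing B] (x y : B) :
    P2 (n + 1) x y = ∑ j ∈ Finset.range n, (((n + 1).choose (j + 1) / (n + 1) : ℕ) : B) * (x ^ (j + 1) * y ^ (n - j)) := by
  unfold P2
  rw [Finset.sum_Ico_eq_sum_range]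
  have h : n + 1 - 1 = n := rfl
  rw [h]
  refine Finset.sum_congr rfl fun j _ => ?_
  have h1 : 1 + j = j + 1 := by omega
  have h2 : n + 1 - (j + 1) = n - j := by omega
  rw [h1, h2]

theorem PPM : PPM_stmt := by
  refine ⟨?_, ?_, ?_⟩
  · intro p B B' _ _ φ x y
    simp [P2, map_sum, map_mul, map_pow]
  · intro p B _ c x y
    unfold P2
    rw [Finset.mul_sum]
    refine Finset.sum_congr rfl fun i hi => ?_
    have h1 := (Finset.mem_Ico.1 hi).2
    have h2 : c ^ p = c ^ i * c ^ (p - i) := by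
      rw [← pow_add]
      congr 1
      omega
    rw [h2, mul_pow, mul_pow]
    ring
  · intro p hp B _ δ hδ x y
    obtain ⟨n, rfl⟩ : ∃ n, p = n + 1 := ⟨p - 1, by have := hp.out.pos; omega⟩
    have e1 : δ (P2 (n + 1) x y) = (∑ j ∈ Finset.range n, (n.choose j : B) * (x ^ j * y ^ (n - j))) * δ x +
        (∑ j ∈ Finset.range n, (n.choose (j + 1) : B) * (x ^ (j + 1) * y ^ (n - (j + 1)))) * δ y := by
      rw [PPM_P2, map_sum, Finset.sum_mul, Finset.sum_mul, ← Finset.sum_add_distrib]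
      refine Finset.sum_congr rfl fun j hj => ?_
      have hj := Finset.mem_range.1 hj
      have h1 : n - j = (n - (j + 1)) + 1 := by omega
      rw [PPM_nat, hδ, PPM_pow δ hδ]
      have h2 : δ (y ^ (n - j)) = ((n - j : ℕ) : B) * (y ^ (n - (j + 1)) * δ y) := by
        rw [h1, PPM_pow δ hδ]
      rw [h2, ← PPM_c1 hp.out hj, ← PPM_c2 hp.out hj]
      push_cast
      ring
    have e2 : (x + y) ^ n = (∑ j ∈ Finset.range n, (n.choose j : B) * (x ^ j * y ^ (n - j))) + x ^ n := by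
      rw [add_pow, Finset.sum_range_succ]
      congr 1
      · refine Finset.sum_congr rfl fun j _ => ?_
        ring
      · simp
    have e3 : (x + y) ^ n = (∑ j ∈ Finset.range n, (n.choose (j + 1) : B) * (x ^ (j + 1) * y ^ (n - (j + 1)))) + y ^ n := by
      rw [add_pow, Finset.sum_range_succ']
      congr 1
      · refine Finset.sum_congr rfl fun j _ => ?_
        ring
      · simp
    rw [e1, Nat.add_sub_cancel]
    have f1 : (∑ j ∈ Finset.range n, (n.choose j : B) * (x ^ j * y ^ (n - j))) = (x + y) ^ n - x ^ n := by rw [e2]; ring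
    have f2 : (∑ j ∈ Finset.range n, (n.choose (j + 1) : B) * (x ^ (j + 1) * y ^ (n - (j + 1)))) = (x + y) ^ n - y ^ n := by rw [e3]; ring
    rw [f1, f2]
    ring

end NPT
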